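import Pool.Agent.K7.H47.DM.Stm4

set_option autoImplicit false

namespace Pool.Agent.K7.H32.D4

open Pool.Agent.K7.H47.DM4 Submodule

theorem indep_of {N : ℕ} {E : Type} [Finite E] {v v' : E → Fin N → ℂ}
    (h : ∀ f : Fin N → E, Function.Injective f → (Matrix.of fun c k => v (f c) k).det ≠ 0 →
      (Matrix.of fun c k => v' (f c) k).det ≠ 0)
    (hs : span ℂ (Set.range v) = ⊤) {B : Set E} (hB : LinearIndepOn ℂ v B) :
    LinearIndepOn ℂ v' B := by
  obtain ⟨b, -, hBb, hsp, hb⟩ := exists_linearIndepOn_extension hB (Set.subset_univ B)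
  have htop : span ℂ (v '' b) = ⊤ := by
    rw [eq_top_iff, ← hs, span_le, ← Set.image_univ]
    exact hsp
  have hrange : Set.range (fun x : b => v x) = v '' b := by
    ext y; simp
  have hb' : LinearIndependent ℂ (fun x : b => v x) := hb
  have bas : Module.Basis b ℂ (Fin N → ℂ) := Module.Basis.mk hb' (by rw [hrange, htop])
  have hcard : Nat.card b = N := by
    have h1 := Module.finrank_eq_nat_card_basis bas
    rw [Module.finrank_fin_fun] at h1
    exact h1.symm
  let g : Fin N ≃ b := (Finite.equivFinOfCardEq hcard).symm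
  have h1 : LinearIndependent ℂ (fun c => v (g c)) := hb'.comp g g.injective
  have h2 : (Matrix.of fun c k => v (g c) k).det ≠ 0 := by
    have h3 : LinearIndependent ℂ (Matrix.of fun c k => v (g c) k).row := h1
    have h4 := Matrix.linearIndependent_rows_iff_isUnit.1 h3
    exact ((Matrix.isUnit_iff_isUnit_det _).1 h4).ne_zero
  have h3 := h (fun c => g c) (Subtype.val_injective.comp g.injective) h2
  have h4 : LinearIndependent ℂ (fun c => v' (g c)) := by
    have h5 : IsUnit (Matrix.of fun c k => v' (g c) k) :=
      (Matrix.isUnit_iff_isUnit_det _).2 (isUnit_iff_ne_zero.2 h3)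
    exact Matrix.linearIndependent_rows_iff_isUnit.2 h5
  have h5 : LinearIndepOn ℂ v' b := by
    have h6 := h4.comp g.symm g.symm.injective
    have h7 : (fun c => v' (g c)) ∘ g.symm = fun x : b => v' x := by
      funext x; simp
    rw [h7] at h6
    exact h6
  exact h5.mono hBb

theorem lin : StLin := by
  intro N E _ v v' h hs hs' p
  classical
  have hi : ∀ B : Set E, LinearIndepOn ℂ v B ↔ LinearIndepOn ℂ v' B := fun B =>
    ⟨indep_of (fun f hf => (h f hf).1) hs, indep_of (fun f hf => (h f hf).2) hs'⟩
  let Z : Set E := {e | ∑ k, v e k * p k = 0}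
  let A : Submodule ℂ (Fin N → ℂ) :=
    { carrier := {q | ∀ z ∈ Z, ∑ k, v' z k * q k = 0}
      add_mem' := by
        intro a b ha hb z hz
        simp only [Pi.add_apply, mul_add, Finset.sum_add_distrib, ha z hz, hb z hz, add_zero]
      zero_mem' := by intro z hz; simp
      smul_mem' := by
        intro c a ha z hz
        have := ha z hz
        simp only [Pi.smul_apply, smul_eq_mul]
        rw [← mul_zero c, ← this, Finset.mul_sum]
        exact Finset.sum_congr rfl fun k _ => by ring }
  let F : {e : E // e ∉ Z} → Module.Dual ℂ (Fin N → ℂ) := fun e =>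
    { toFun := fun q => ∑ k, v' e k * q k
      map_add' := by intro a b; simp only [Pi.add_apply, mul_add, Finset.sum_add_distrib]
      map_smul' := by
        intro c a
        simp only [Pi.smul_apply, smul_eq_mul, RingHom.id_apply]
        rw [Finset.mul_sum]
        exact Finset.sum_congr rfl fun k _ => by ring }
  have hF : ∀ e : {e : E // e ∉ Z}, ∃ q ∈ A, F e q ≠ 0 := by
    rintro ⟨e, he⟩
    -- `v' e` is not in the span of `v' Z`
    have hnot : v' e ∉ span ℂ (v' '' Z) := by
      intro hmem
      obtain ⟨B, hBZ, -, hsp, hB⟩ := exists_linearIndepOn_extension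
        (linearIndepOn_empty ℂ v') (Set.empty_subset Z)
      have heB : e ∉ B := fun h' => he (hBZ h')
      have hmem' : v' e ∈ span ℂ (v' '' B) := by
        have : span ℂ (v' '' Z) ≤ span ℂ (v' '' B) := span_le.2 hsp
        exact this hmem
      have hdep : ¬ LinearIndepOn ℂ v' (insert e B) := by
        rw [linearIndepOn_insert heB]
        exact fun h' => h'.2 hmem'
      rw [← hi, linearIndepOn_insert heB] at hdep
      have hBv := (hi B).2 hB
      have hmem2 : v e ∈ span ℂ (v '' B) := by
        by_contra hcon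
        exact hdep ⟨hBv, hcon⟩
      apply he
      show ∑ k, v e k * p k = 0
      refine span_induction (p := fun x _ => ∑ k, x k * p k = 0) ?_ ?_ ?_ ?_ hmem2
      · rintro _ ⟨z, hz, rfl⟩
        exact hBZ hz
      · simp
      · intro x y _ _ hx hy
        simp only [Pi.add_apply, add_mul, Finset.sum_add_distrib, hx, hy, add_zero]
      · intro c x _ hx
        simp only [Pi.smul_apply, smul_eq_mul, mul_assoc]
        rw [← Finset.mul_sum, hx, mul_zero]
    obtain ⟨f, hf1, hf2⟩ := exists_dual_map_eq_bot_of_notMem hnot inferInstance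
    have hf : ∀ x : Fin N → ℂ, ∑ k, x k * f (Pi.single k 1) = f x := by
      intro x
      conv_rhs => rw [← (Pi.basisFun ℂ (Fin N)).sum_repr x, map_sum]
      exact Finset.sum_congr rfl fun k _ => by simp
    refine ⟨fun k => f (Pi.single k 1), ?_, ?_⟩
    · intro z hz
      rw [hf]
      have : f (v' z) ∈ (span ℂ (v' '' Z)).map f := mem_map_of_mem (subset_span ⟨z, hz, rfl⟩)
      rw [hf2] at this
      simpa using this
    · show ∑ k, v' e k * f (Pi.single k 1) ≠ 0
      rw [hf]
      exact hf1
  obtain ⟨p', hp', hne⟩ := Module.Dual.exists_forall_mem_ne_zero_of_forall_exists A F hF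
  refine ⟨p', fun e => ⟨fun he => hp' e he, fun he => ?_⟩⟩
  by_contra hcon
  exact hne ⟨e, hcon⟩ he

end Pool.Agent.K7.H32.D4
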