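import Pool.Agent.K7.H84.GG.Stm
import Pool.Agent.K7.H62.GG_WEIS

set_option autoImplicit false

/-!
Jobs S7 (`StS7`, `StSgn`) of the project GG of helper84: the principal truncation at a line `L`
through `p`, its flats containing `p`, its hyperplanes avoiding `p`.
-/

open Finset DC813

namespace Pool.Agent.K7.H32.GGS7

open Pool.Agent.K7.H84.GG

variable {α : Type} [DecidableEq α] {r : Finset α → ℕ}

theorem ind_mono (hr : IsRk r) {L X Z : Finset α}
    (hXZ : X ⊆ Z) (h : r (X ∪ L) = r X) : r (Z ∪ L) = r Z := by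
  have h1 := hr.submod Z (X ∪ L)
  have h2 : Z ∪ (X ∪ L) = Z ∪ L := by
    rw [← Finset.union_assoc, Finset.union_eq_left.2 hXZ]
  have h3 : r X ≤ r (Z ∩ (X ∪ L)) :=
    hr.mono _ _ (Finset.subset_inter hXZ Finset.subset_union_left)
  have h4 : r Z ≤ r (Z ∪ L) := hr.mono _ _ Finset.subset_union_left
  rw [h2] at h1
  omega

theorem flm {E F : Finset α} :
    F ∈ fl r E ↔ F ⊆ E ∧ ∀ e ∈ E, e ∉ F → r F < r (insert e F) := by
  unfold fl; rw [mem_filter, mem_powerset]

theorem tr_eq {L A : Finset α} (h : r (A ∪ L) = r A) : tr r L A = r A - 1 := by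
  unfold tr; rw [if_pos h]

theorem tr_ne {L A : Finset α} (h : r (A ∪ L) ≠ r A) : tr r L A = r A := by
  unfold tr; rw [if_neg h]; rfl

theorem tr_le (L A : Finset α) : tr r L A ≤ r A := Nat.sub_le _ _

theorem tr_sup {L A : Finset α} (h : L ⊆ A) : tr r L A = r A - 1 :=
  tr_eq (by rw [union_eq_left.2 h])

/-- basic facts of the situation -/
theorem le_one (hr : IsRk r) (x : α) : r {x} ≤ 1 := by
  have := hr.insert_le ∅ x
  rw [hr.empty] at this
  simpa using this

theorem lp_tr {E L : Finset α} (hr : IsRk r) (lp : Lp r E) (hL2 : r L = 2) : Lp (tr r L) E := by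
  intro x hx
  have h1 := le_one hr x
  have h2 := hr.mono L ({x} ∪ L) subset_union_right
  rw [tr_ne (by omega)]
  exact lp x hx

theorem un_le (hr : IsRk r) {E F L : Finset α} {p : α} (lp : Lp r E) (hp : p ∈ E) (hpF : p ∈ F)
    (hpL : p ∈ L) (hL2 : r L = 2) : r (F ∪ L) ≤ r F + 1 := by
  have h1 := hr.submod F L
  have h2 := hr.mono {p} (F ∩ L) (singleton_subset_iff.2 (mem_inter.2 ⟨hpF, hpL⟩))
  have h3 := lp p hp
  omega

theorem fl_tr {E L : Finset α} {p : α} (c : Ctx r E L p) :
    (fl (tr r L) E).filter (fun F => p ∈ F) = (fl r E).filter (fun F => L ⊆ F) := by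
  have hr := c.hr
  have hLE := (flm.1 c.hL).1
  ext F
  rw [mem_filter, mem_filter, flm, flm]
  constructor
  · rintro ⟨⟨h1, h2⟩, h3⟩
    have hLF : L ⊆ F := by
      intro e he
      by_contra heF
      have h4 := h2 e (hLE he) heF
      have h5 := un_le hr c.lp c.hp h3 c.hpL c.hL2
      have h6 : insert e F ∪ L = F ∪ L := by
        rw [insert_union, insert_eq_of_mem (mem_union_right _ he)]
      have h7 : r (insert e F) ≤ r (F ∪ L) :=
        hr.mono _ _ (insert_subset (mem_union_right _ he) subset_union_left)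
      have h8 := hr.mono F (insert e F) (subset_insert _ _)
      have h9 := tr_le (r := r) L (insert e F)
      by_cases hc : r (F ∪ L) = r F
      · rw [tr_eq hc, tr_eq (by rw [h6]; omega)] at h4
        omega
      · rw [tr_ne hc] at h4
        have h10 : r (insert e F ∪ L) = r (insert e F) := by rw [h6]; omega
        rw [tr_eq h10] at h4
        omega
    refine ⟨⟨h1, fun e he heF => ?_⟩, hLF⟩
    have h4 := h2 e he heF
    rw [tr_sup hLF, tr_sup (hLF.trans (subset_insert _ _))] at h4
    omega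
  · rintro ⟨⟨h1, h2⟩, h3⟩
    refine ⟨⟨h1, fun e he heF => ?_⟩, h3 c.hpL⟩
    have h4 := h2 e he heF
    have h5 := hr.mono L F h3
    have h6 := c.hL2
    rw [tr_sup h3, tr_sup (h3.trans (subset_insert _ _))]
    omega

theorem con_tr {L F : Finset α} (hr : IsRk r) (hL2 : r L = 2) (hLF : L ⊆ F) :
    con (tr r L) F = con r F := by
  funext A
  unfold con
  have h1 := hr.mono L F hLF
  have h2 := hr.mono F (A ∪ F) subset_union_right
  rw [tr_sup hLF, tr_sup (hLF.trans subset_union_right)]
  omega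

theorem hy_tr {E L : Finset α} {p : α} (c : Ctx r E L p) :
    hy (tr r L) E p = T1 r E L := by
  have hr := c.hr
  have hL2 := c.hL2
  have hLE := (flm.1 c.hL).1
  have hE := hr.mono L E hLE
  unfold hy T1
  ext H
  rw [mem_filter, mem_filter, flm, flm, tr_sup hLE]
  constructor
  · rintro ⟨⟨h1, h2⟩, h3, h4⟩
    have h5 := h2 p c.hp h4
    have h6 : insert p H ∪ L = H ∪ L := by
      rw [insert_union, insert_eq_of_mem (mem_union_right _ c.hpL)]
    have h7 : r (insert p H) ≤ r (H ∪ L) :=
      hr.mono _ _ (insert_subset (mem_union_right _ c.hpL) subset_union_left)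
    have h8 := hr.mono H (insert p H) (subset_insert _ _)
    have h9 := hr.submod H L
    have h10 := hr.mono H (H ∪ L) subset_union_left
    have h11 := hr.insert_le H p
    have h12 := hr.mono (H ∪ L) E (union_subset h1 hLE)
    have hne : r (H ∪ L) ≠ r H := by
      intro hc
      rw [tr_eq hc, tr_eq (by rw [h6]; omega)] at h5
      omega
    rw [tr_ne hne] at h3 h5
    have h13 := tr_le (r := r) L (insert p H)
    have hne2 : r (H ∪ L) ≠ r H + 1 := by
      intro hc
      rw [tr_eq (by rw [h6]; omega)] at h5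
      omega
    refine ⟨⟨h1, fun e he heH => ?_⟩, by omega, by omega⟩
    have h14 := h2 e he heH
    rw [tr_ne hne] at h14
    have h15 := tr_le (r := r) L (insert e H)
    omega
  · rintro ⟨⟨h1, h2⟩, h3, h4⟩
    have hne : r (H ∪ L) ≠ r H := by omega
    have hpH : p ∉ H := by
      intro hp
      have := un_le hr c.lp c.hp hp c.hpL c.hL2
      omega
    refine ⟨⟨h1, fun e he heH => ?_⟩, by rw [tr_ne hne]; omega, hpH⟩
    have h5 := h2 e he heH
    have h6 := hr.insert_le H e
    have h7 := hr.mono (H ∪ L) (insert e H ∪ L) (union_subset_union_left (subset_insert _ _))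
    rw [tr_ne hne, tr_ne (by omega)]
    omega

theorem mu_tr {G L : Finset α} (hr : IsRk r) (h : r (G ∪ L) ≠ r G) :
    mu (tr r L) G = mu r G := by
  have h1 : ∀ X ⊆ G, tr r L X = r X := fun X hX => tr_ne fun hc => h (ind_mono hr hX hc)
  unfold mu
  rw [h1 G (Subset.refl _)]
  congr 1
  refine sum_congr (filter_congr fun X hX => ?_) fun _ _ => rfl
  rw [h1 X (mem_powerset.1 hX)]

theorem t (hTR : StTR) : StS7 := by
  intro α _ r E L p f c hI hf
  have hr := c.hr
  have hL2 := c.hL2
  have hLE := (flm.1 c.hL).1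
  have hE := hr.mono L E hLE
  have hN : IsRk (tr r L) := hTR α r L hr (by omega)
  have h1 : tr r L E < r E := by rw [tr_sup hLE]; omega
  have h2 := hI _ h1 (tr r L) E p f hN rfl (lp_tr hr c.lp hL2) c.hp hf
  unfold GGs at h2
  rw [fl_tr c, hy_tr c] at h2
  have h3 : ∑ F ∈ (fl r E).filter (fun F => L ⊆ F), beta (tr r L) F * mc (tr r L) E F * f (E \ F)
      = ∑ F ∈ (fl r E).filter (fun F => L ⊆ F), beta (tr r L) F * mc r E F * f (E \ F) := by
    refine sum_congr rfl fun F hF => ?_
    unfold mc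
    rw [con_tr hr hL2 (mem_filter.1 hF).2]
  have h4 : ∑ G ∈ T1 r E L, mu (tr r L) G * f G = ∑ G ∈ T1 r E L, mu r G * f G := by
    refine sum_congr rfl fun G hG => ?_
    obtain ⟨-, h5, h6⟩ := mem_filter.1 hG
    rw [mu_tr hr (by omega)]
  rw [h3, h4] at h2
  exact h2

theorem t2 (hTR : StTR) (hB : StBNN) : StSgn := by
  intro α _ r E L p c hI
  have hr := c.hr
  have hL2 := c.hL2
  have hLE := (flm.1 c.hL).1
  have hN : IsRk (tr r L) := hTR α r L hr (by omega)
  constructor
  · have hp0 := c.lp p c.hp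
    have hp1 := le_one hr p
    obtain ⟨y, hy1, hy2⟩ : ∃ y ∈ L, r (insert y {p}) ≠ r {p} := by
      by_contra hc
      push Not at hc
      have h1 := Pool.Agent.K7.H62.GGWEIS.rk_union_of hr {p} L hc
      have h2 := hr.mono L ({p} ∪ L) subset_union_right
      omega
    have h3 := hr.mono {p} (insert y {p}) (subset_insert _ _)
    have h4 := hr.insert_le {p} y
    have hyL : ({y} : Finset α) ⊆ L := singleton_subset_iff.2 hy1
    have h5 := hr.insert_le {y} p
    have h6 : insert p {y} = (insert y {p} : Finset α) := pair_comm p y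
    rw [h6] at h5
    have h7 := le_one hr y
    refine card_pos.2 ⟨cl r L {y}, mem_filter.2
      ⟨Pool.Agent.K7.H62.GGWEIS.cl_mem_fl hr hyL, ?_, ?_⟩⟩
    · rw [Pool.Agent.K7.H62.GGWEIS.rk_cl hr hyL]; omega
    · rw [Pool.Agent.K7.H62.GGWEIS.mem_cl]
      rintro ⟨-, h8⟩
      rw [h6] at h8
      omega
  · intro X hX
    obtain ⟨hX1, hX2, hX3, hX4⟩ := mem_filter.1 hX
    obtain ⟨hX5, hX6⟩ := flm.1 hX1
    have hpX : p ∉ X := fun h => (disjoint_left.1 hX3) h c.hpL
    have h1 := hX6 p c.hp hpX
    have h2 := hr.insert_le X p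
    have h3 : insert p X ∪ L = X ∪ L := by
      rw [insert_union, insert_eq_of_mem (mem_union_right _ c.hpL)]
    have h4 := hr.mono (X ∪ L) E (union_subset hX5 hLE)
    have h5 : tr r L (insert p X) < r E := by
      rw [tr_eq (by rw [h3]; omega)]
      omega
    have hlp : Lp (tr r L) (insert p X) := fun x hx =>
      lp_tr hr c.lp hL2 x (insert_subset c.hp hX5 hx)
    exact hB α (tr r L) (insert p X) p hN hlp (mem_insert_self _ _) fun f hf =>
      hI _ h5 (tr r L) (insert p X) p f hN rfl hlp (mem_insert_self _ _) hf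

end Pool.Agent.K7.H32.GGS7
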